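import Mathlib
import Pool.Agent.H29.ZMon

/-! An abelian group whose endomorphism ring is centrally essential and not a PI ring. -/

namespace Pool.Agent.Results.MP_0be8ec_al.NonPI

/-- Centrally essential rings. -/
def CentrallyEssential (R : Type) [Ring R] : Prop :=
  ∀ a : R, a ≠ 0 → ∃ x ∈ Subring.center R, ∃ y ∈ Subring.center R, a * x = y ∧ y ≠ 0

/-- PI rings: a noncommutative integer polynomial is a finitely supported coefficient function on
words in the variables `x 0, x 1, …`; some monomial of maximal degree has coefficient `1`. -/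
def IsPI (R : Type) [Ring R] : Prop :=
  ∃ f : List ℕ →₀ ℤ, (∃ w, f w = 1 ∧ ∀ v ∈ f.support, v.length ≤ w.length) ∧
    ∀ r : ℕ → R, (f.sum fun v c => c • (v.map r).prod) = 0

theorem result : ∃ (A : Type) (_ : AddCommGroup A),
    CentrallyEssential (AddMonoid.End A) ∧ ¬ IsPI (AddMonoid.End A) := by
  obtain ⟨A, _, -, h1, h2, -⟩ := Pool.Agent.H29.ZMon.main
  refine ⟨A, inferInstance, fun a ha => ?_, ?_⟩
  · obtain ⟨x, hx, y, hy, -, h0, h⟩ := h1 a ha
    exact ⟨x, hx, y, hy, h, h0⟩
  · rintro ⟨f, ⟨w, hw, -⟩, hf⟩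
    rw [h2 f hf] at hw
    exact zero_ne_one hw

end Pool.Agent.Results.MP_0be8ec_al.NonPI
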